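import Mathlib

/-!
# Counting in projective planes for the accurate domination example
-/

namespace Pool.Agent.R729.Accurate

open Finset

/-- finite projective plane of order `q` given by its incidence relation -/
structure Plane (P L : Type) [Fintype P] [Fintype L] (I : P → L → Prop) (q : ℕ) : Prop where
  two : 2 ≤ q
  thru : ∀ p : P, Nat.card {l : L // I p l} = q + 1
  on : ∀ l : L, Nat.card {p : P // I p l} = q + 1
  uniq : ∀ p p' l l', I p l → I p' l → I p l' → I p' l' → p = p' ∨ l = l'
  join : ∀ p p', ∃ l, I p l ∧ I p' l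
  card_eq : Fintype.card P = Fintype.card L

variable {P L : Type} [Fintype P] [Fintype L] {I : P → L → Prop} {q : ℕ}

open Classical in
lemma card_thru (h : Plane P L I q) (p : P) : (univ.filter fun l => I p l).card = q + 1 := by
  rw [← h.thru p, Nat.card_eq_fintype_card, Fintype.card_subtype]

open Classical in
lemma card_on (h : Plane P L I q) (l : L) : (univ.filter fun p => I p l).card = q + 1 := by
  rw [← h.on l, Nat.card_eq_fintype_card, Fintype.card_subtype]

open Classical in
/-- a nonempty set `Y` of points missing a line meets at least `|Y| + q` lines -/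
lemma mu_le (h : Plane P L I q) (Y : Finset P) (hY : Y.Nonempty) (l0 : L)
    (h0 : ∀ y ∈ Y, ¬ I y l0) :
    Y.card + q ≤ (univ.filter fun l => ∃ y ∈ Y, I y l).card := by
  choose ln hln using h.join
  let Lz : P → Finset L := fun z => univ.filter fun l => I z l ∧ ∃ y ∈ Y, I y l
  have hmem : ∀ z l, l ∈ Lz z ↔ I z l ∧ ∃ y ∈ Y, I y l := by
    intro z l
    simp [Lz]
  have hne : ∀ z y, I z l0 → y ∈ Y → z ≠ y := by
    intro z y hz hy hzy
    exact h0 y hy (hzy ▸ hz)
  have ha : ∑ z ∈ univ.filter (fun z => I z l0), (Lz z).card ≤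
      (univ.filter fun l => ∃ y ∈ Y, I y l).card := by
    rw [← Finset.card_biUnion]
    · apply Finset.card_le_card
      intro l hl
      rw [Finset.mem_biUnion] at hl
      obtain ⟨z, _, hz⟩ := hl
      rw [hmem] at hz
      simp only [Finset.mem_filter, Finset.mem_univ, true_and]
      exact hz.2
    · intro z hz z' hz' hzz'
      have hz : I z l0 := by simpa using hz
      have hz' : I z' l0 := by simpa using hz'
      rw [Function.onFun, Finset.disjoint_left]
      intro l hl hl'
      rw [hmem] at hl hl'
      obtain ⟨y, hy, hyl⟩ := hl.2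
      rcases h.uniq z z' l l0 hl.1 hl'.1 hz hz' with h1 | h1
      · exact hzz' h1
      · exact h0 y hy (h1 ▸ hyl)
  have hb : ∀ z, 1 ≤ (Lz z).card := by
    intro z
    obtain ⟨y, hy⟩ := hY
    rw [Nat.one_le_iff_ne_zero, Finset.card_ne_zero]
    exact ⟨ln z y, (hmem _ _).2 ⟨(hln z y).1, y, hy, (hln z y).2⟩⟩
  have hc : ∀ z, I z l0 → (Lz z).card ≤ q := by
    intro z hz
    have h1 : Lz z ⊆ (univ.filter fun l => I z l).erase l0 := by
      intro l hl
      rw [hmem] at hl
      rw [Finset.mem_erase]
      refine ⟨?_, by simpa using hl.1⟩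
      rintro rfl
      obtain ⟨y, hy, hyl⟩ := hl.2
      exact h0 y hy hyl
    have h2 := Finset.card_le_card h1
    rwa [Finset.card_erase_of_mem (by simpa using hz), card_thru h, Nat.add_sub_cancel] at h2
  have hd : ∀ z, I z l0 → (Lz z).card ≤ Y.card := by
    intro z hz
    have h1 : ∀ l : L, ∃ y : P, l ∈ Lz z → (y ∈ Y ∧ I y l) := by
      intro l
      by_cases hl : l ∈ Lz z
      · obtain ⟨y, hy⟩ := ((hmem _ _).1 hl).2
        exact ⟨y, fun _ => hy⟩
      · exact ⟨z, fun h => absurd h hl⟩
    choose g hg using h1
    refine Finset.card_le_card_of_injOn g (fun l hl => (hg l hl).1) ?_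
    intro l hl l' hl' hll
    have h2 := hg l hl
    have h3 := hg l' hl'
    rw [← hll] at h3
    rcases h.uniq z (g l) l l' ((hmem _ _).1 hl).1 h2.2 ((hmem _ _).1 hl').1 h3.2 with h4 | h4
    · exact absurd h4 (hne z (g l) hz h2.1)
    · exact h4
  have he : ∀ z z', I z l0 → I z' l0 → z ≠ z' → Y.card ≤ (Lz z).card * (Lz z').card := by
    intro z z' hz hz' hzz'
    rw [← Finset.card_product]
    refine Finset.card_le_card_of_injOn (fun y => (ln z y, ln z' y)) ?_ ?_
    · intro y hy
      rw [Finset.mem_coe, Finset.mem_product]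
      exact ⟨(hmem _ _).2 ⟨(hln z y).1, y, hy, (hln z y).2⟩,
        (hmem _ _).2 ⟨(hln z' y).1, y, hy, (hln z' y).2⟩⟩
    · intro y hy y' hy' hyy'
      simp only [Prod.mk.injEq] at hyy'
      by_contra hne'
      have h1 := (hln z y).2
      have h2 := (hln z y').2
      rw [← hyy'.1] at h2
      have h3 := (hln z' y).2
      have h4 := (hln z' y').2
      rw [← hyy'.2] at h4
      rcases h.uniq y y' (ln z y) (ln z' y) h1 h2 h3 h4 with h5 | h5
      · exact hne' h5
      · have h6 := (hln z y).1
        have h7 := (hln z' y).1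
        rw [← h5] at h7
        rcases h.uniq z z' (ln z y) l0 h6 h7 hz hz' with h8 | h8
        · exact hzz' h8
        · exact h0 y hy (h8 ▸ h1)
  have hon := card_on h l0
  obtain ⟨z0, hz0⟩ : (univ.filter fun z => I z l0).Nonempty := by
    rw [← Finset.card_pos, hon]
    omega
  have hz0' : I z0 l0 := by simpa using hz0
  have hsum : ∑ z ∈ univ.filter (fun z => I z l0), (Lz z).card =
      (Lz z0).card + ∑ z ∈ (univ.filter (fun z => I z l0)).erase z0, (Lz z).card :=
    (Finset.add_sum_erase _ _ hz0).symm
  set a := (Lz z0).card with hadef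
  have h1 : q * Y.card ≤ a * ∑ z ∈ (univ.filter (fun z => I z l0)).erase z0, (Lz z).card := by
    rw [Finset.mul_sum]
    calc q * Y.card = ∑ _z ∈ (univ.filter (fun z => I z l0)).erase z0, Y.card := by
          rw [Finset.sum_const, smul_eq_mul, Finset.card_erase_of_mem hz0, hon, Nat.add_sub_cancel]
      _ ≤ _ := by
          apply Finset.sum_le_sum
          intro z hz
          rw [Finset.mem_erase] at hz
          exact he z0 z hz0' (by simpa using hz.2) hz.1.symm
  have h2 : a ≤ q := hc z0 hz0'
  have h3 : a ≤ Y.card := hd z0 hz0'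
  have h4 : 1 ≤ a := hb z0
  refine le_trans ?_ ha
  rw [hsum]
  set s := ∑ z ∈ (univ.filter (fun z => I z l0)).erase z0, (Lz z).card with hsdef
  have h5 : a * (Y.card + q) ≤ a * (a + s) := by
    obtain ⟨u, hu⟩ := Nat.exists_eq_add_of_le h2
    obtain ⟨v, hv⟩ := Nat.exists_eq_add_of_le h3
    rw [hu, hv] at h1 ⊢
    nlinarith [Nat.zero_le (u * v)]
  exact Nat.le_of_mul_le_mul_left h5 (by omega)

open Classical in
/-- The main combinatorial statement: `X` points and a set `F` of flags that together are
dominating and have fewer than `|P| + q` elements leave room for a perfect matching by flags. -/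
lemma exists_matching (h : Plane P L I q) (X : Finset P) (F : Finset (P × L))
    (hF : ∀ f ∈ F, I f.1 f.2)
    (h1 : ∀ v, v ∉ X → ∃ l, (v, l) ∈ F)
    (h2 : ∀ l, (∃ v, (v, l) ∈ F) ∨ ∀ v, I v l → v ∈ X)
    (hcard : X.card + F.card < Fintype.card P + q) :
    ∃ f : P → L, Function.Bijective f ∧ ∀ v, I v (f v) ∧ (v, f v) ∉ F := by
  let t : P → Finset L := fun v => univ.filter fun l => I v l ∧ (v, l) ∉ F
  have ht : ∀ v l, l ∈ t v ↔ I v l ∧ (v, l) ∉ F := by
    intro v l
    simp [t]
  have h2q := h.two
  have hcompl : Xᶜ.card + X.card = Fintype.card P := by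
    rw [add_comm, Finset.card_add_card_compl]
  suffices hall : ∀ A : Finset P, A.card ≤ (A.biUnion t).card by
    obtain ⟨f, hf1, hf2⟩ := (Finset.all_card_le_biUnion_card_iff_exists_injective t).1 hall
    exact ⟨f, (Fintype.bijective_iff_injective_and_card f).2 ⟨hf1, h.card_eq⟩,
      fun v => (ht _ _).1 (hf2 v)⟩
  -- number of free flags at `v`
  have hrow : ∀ v, (t v).card + (F.filter fun f => f.1 = v).card = q + 1 := by
    intro v
    rw [← card_thru h v]
    have e1 : (F.filter fun f => f.1 = v).card =
        ((univ.filter fun l => I v l).filter fun l => (v, l) ∈ F).card := by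
      refine Finset.card_bij' (fun f _ => f.2) (fun l _ => (v, l)) ?_ ?_ ?_ ?_
      · rintro ⟨u, l⟩ hf
        simp only [Finset.mem_filter] at hf
        obtain ⟨hf1, rfl⟩ := hf
        simp only [Finset.mem_filter, Finset.mem_univ, true_and]
        exact ⟨hF _ hf1, hf1⟩
      · intro l hl
        simp only [Finset.mem_filter, Finset.mem_univ, true_and] at hl
        simp only [Finset.mem_filter, and_true]
        exact hl.2
      · rintro ⟨u, l⟩ hf
        simp only [Finset.mem_filter] at hf
        obtain ⟨_, rfl⟩ := hf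
        rfl
      · intro l _
        rfl
    have e2 : t v = (univ.filter fun l => I v l).filter fun l => ¬ (v, l) ∈ F := by
      ext l
      simp [t]
    rw [e1, e2, add_comm]
    exact Finset.card_filter_add_card_filter_not _
  intro A
  -- double counting of free flags over `A`
  have hcount : ∀ c : ℕ, (∀ l, ((univ.filter fun v => I v l).filter fun v => ¬ (v, l) ∈ F).card ≤ c) →
      ∑ v ∈ A, (t v).card ≤ c * (A.biUnion t).card := by
    intro c hc
    calc ∑ v ∈ A, (t v).card = ∑ v ∈ A, ∑ l ∈ A.biUnion t, (if l ∈ t v then 1 else 0) := by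
          apply Finset.sum_congr rfl
          intro v hv
          rw [Finset.sum_ite_mem, Finset.sum_const, smul_eq_mul, mul_one]
          congr 1
          symm
          rw [Finset.inter_eq_right]
          exact Finset.subset_biUnion_of_mem t hv
      _ = ∑ l ∈ A.biUnion t, ∑ v ∈ A, (if l ∈ t v then 1 else 0) := Finset.sum_comm
      _ ≤ ∑ _l ∈ A.biUnion t, c := by
          apply Finset.sum_le_sum
          intro l _
          rw [← Finset.card_filter]
          refine le_trans (Finset.card_le_card ?_) (hc l)
          intro v hv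
          simp only [Finset.mem_filter, ht] at hv
          simp only [Finset.mem_filter, Finset.mem_univ, true_and]
          exact hv.2
      _ = _ := by rw [Finset.sum_const, smul_eq_mul, mul_comm]
  have hFsum : ∀ B : Finset P, ∑ v ∈ B, (F.filter fun f => f.1 = v).card ≤ F.card := by
    intro B
    have e1 : ∑ v ∈ B, (F.filter fun f => f.1 = v).card =
        (F.filter fun f => f.1 ∈ B).card := by
      rw [Finset.card_filter]
      simp_rw [Finset.card_filter]
      rw [Finset.sum_comm]
      apply Finset.sum_congr rfl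
      intro f _
      rw [Finset.sum_ite_eq]
    rw [e1]
    exact Finset.card_filter_le _ _
  have hsumrow : ∑ v ∈ A, (t v).card + ∑ v ∈ A, (F.filter fun f => f.1 = v).card =
      (q + 1) * A.card := by
    rw [← Finset.sum_add_distrib, Finset.sum_congr rfl fun v _ => hrow v, Finset.sum_const,
      smul_eq_mul, mul_comm]
  by_cases hY : Xᶜ.Nonempty
  · -- all lines are hit
    have hhit : ∀ l, ∃ v, (v, l) ∈ F := by
      by_contra hcon
      push Not at hcon
      obtain ⟨l0, hl0⟩ := hcon
      have h3 : ∀ y ∈ Xᶜ, ¬ I y l0 := by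
        intro y hy hyl
        rcases h2 l0 with ⟨v, hv⟩ | h4
        · exact hl0 v hv
        · exact (Finset.mem_compl.1 hy) (h4 y hyl)
      have h4 := mu_le h Xᶜ hY l0 h3
      have h5 : (univ.filter fun l => ∃ y ∈ Xᶜ, I y l).card ≤ F.card := by
        have h6 : ∀ l : L, ∃ v : P, l ∈ (univ.filter fun l => ∃ y ∈ Xᶜ, I y l) → (v, l) ∈ F := by
          intro l
          rcases h2 l with ⟨v, hv⟩ | h7
          · exact ⟨v, fun _ => hv⟩
          · obtain ⟨y0, _⟩ := hY
            refine ⟨y0, fun hl => ?_⟩
            simp only [Finset.mem_filter, Finset.mem_univ, true_and] at hl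
            obtain ⟨y, hy, hyl⟩ := hl
            exact absurd (h7 y hyl) (Finset.mem_compl.1 hy)
        choose g hg using h6
        refine Finset.card_le_card_of_injOn (fun l => (g l, l)) (fun l hl => hg l hl) ?_
        intro l _ l' _ hll
        exact (Prod.mk.inj hll).2
      omega
    have h3 := hcount q (by
      intro l
      obtain ⟨v, hv⟩ := hhit l
      have h4 : ((univ.filter fun v => I v l).filter fun v => ¬ (v, l) ∈ F) ⊆
          (univ.filter fun v => I v l).erase v := by
        intro u hu
        simp only [Finset.mem_filter, Finset.mem_univ, true_and] at hu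
        rw [Finset.mem_erase]
        refine ⟨?_, by simpa using hu.1⟩
        rintro rfl
        exact hu.2 hv
      have h5 := Finset.card_le_card h4
      rwa [Finset.card_erase_of_mem (by simpa using hF _ hv), card_on h, Nat.add_sub_cancel] at h5)
    -- flags at points of `A`
    have h4 : ∑ v ∈ A, (F.filter fun f => f.1 = v).card + Xᶜ.card ≤ F.card + A.card := by
      have h5 : (Xᶜ \ A).card ≤ ∑ v ∈ Xᶜ \ A, (F.filter fun f => f.1 = v).card := by
        rw [Finset.card_eq_sum_ones]
        apply Finset.sum_le_sum
        intro v hv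
        rw [Finset.mem_sdiff, Finset.mem_compl] at hv
        obtain ⟨l, hl⟩ := h1 v hv.1
        rw [Nat.one_le_iff_ne_zero, Finset.card_ne_zero]
        exact ⟨(v, l), by simpa using hl⟩
      have h6 := hFsum (A ∪ (Xᶜ \ A))
      rw [Finset.sum_union Finset.disjoint_sdiff] at h6
      have h7 : Xᶜ.card ≤ (Xᶜ \ A).card + A.card := by
        have := Finset.le_card_sdiff A Xᶜ
        omega
      omega
    have h5 : q * A.card < q * (A.biUnion t).card + q := by
      have h8 : (q + 1) * A.card = q * A.card + A.card := by ring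
      omega
    have h6 : q * A.card < q * ((A.biUnion t).card + 1) := by
      rw [mul_add, mul_one]
      exact h5
    have h7 := Nat.lt_of_mul_lt_mul_left h6
    omega
  · -- all points are in `X`
    have hY0 : Xᶜ.card = 0 := by
      rw [Finset.not_nonempty_iff_eq_empty] at hY
      rw [hY, Finset.card_empty]
    have h3 := hcount (q + 1) (by
      intro l
      refine (Finset.card_filter_le _ _).trans ?_
      rw [card_on h])
    have h4 := hFsum A
    have h5 : (q + 1) * A.card < (q + 1) * ((A.biUnion t).card + 1) := by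
      have h8 : (q + 1) * ((A.biUnion t).card + 1) = (q + 1) * (A.biUnion t).card + (q + 1) := by ring
      omega
    have h7 := Nat.lt_of_mul_lt_mul_left h5
    omega

end Pool.Agent.R729.Accurate
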